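import Pool.Agent.H61.KV.TS

/-!
# Module STD of the board `kv_modules`

Coordinates in a space of dimension 9 with a subspace of dimension 4.
-/

open Pool.Agent.H61.KV

namespace Pool.Agent.H42.KVSTD

theorem pf_STD : T_STD := by
  intro V _ _ _ S hV hS
  obtain ⟨S', hc⟩ := S.exists_isCompl
  have hS' : Module.finrank ℝ S' = 5 := by
    have := Submodule.finrank_add_eq_of_isCompl hc
    omega
  have e1 : S ≃ₗ[ℝ] E4 := LinearEquiv.ofFinrankEq _ _ (by rw [hS, finrank_euclideanSpace_fin])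
  have e2 : S' ≃ₗ[ℝ] E5 := LinearEquiv.ofFinrankEq _ _ (by rw [hS', finrank_euclideanSpace_fin])
  let L : V ≃ₗ[ℝ] E4 × E5 :=
    (Submodule.prodEquivOfIsCompl S S' hc).symm.trans (e1.prodCongr e2)
  refine ⟨L.toContinuousLinearEquiv, fun v => ?_⟩
  have h1 : (L.toContinuousLinearEquiv v).2 =
      e2 ((Submodule.prodEquivOfIsCompl S S' hc).symm v).2 := rfl
  rw [h1, LinearEquiv.map_eq_zero_iff, Submodule.prodEquivOfIsCompl_symm_apply_snd_eq_zero]

end Pool.Agent.H42.KVSTD
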